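import Mathlib
import Pool.Agent.R207.OddWave5

set_option autoImplicit false

/-!
# Intensity-dependent NLS: the odd periodic wave at frequency `0` is unstable for every small period
-/

namespace Pool.Agent.Results.MP_885ebb_an.OddUnstable

open Real Set Filter Topology MeasureTheory ContDiff

/-- `φ` is an odd wave of period `L` and frequency `om`: a smooth real solution of
`-(1-φ²)φ'' + om φ - φ³ = 0` with `|φ| < 1`, which is `L`-periodic, odd, and positive on
`(0, L/2)`. -/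
structure IsOddWave (L om : ℝ) (φ : ℝ → ℝ) : Prop where
  smooth : ContDiff ℝ ∞ φ
  lt : ∀ x, |φ x| < 1
  eq : ∀ x, -(1 - φ x ^ 2) * deriv (deriv φ) x + om * φ x - φ x ^ 3 = 0
  per : Function.Periodic φ L
  odd : ∀ x, φ (-x) = -φ x
  pos : ∀ x, 0 < x → x < L / 2 → 0 < φ x

/-- The energy `H`. -/
noncomputable def energyH (L : ℝ) (u : ℝ → ℂ) : ℝ :=
  ∫ x in (0 : ℝ)..L, (‖deriv u x‖ ^ 2 + ‖u x‖ ^ 2 + Real.log (1 - ‖u x‖ ^ 2))

/-- The mass `Q`. -/
noncomputable def massQ (L : ℝ) (u : ℝ → ℂ) : ℝ := -∫ x in (0 : ℝ)..L, Real.log (1 - ‖u x‖ ^ 2)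

/-- `φ` minimizes `H` among the smooth functions `u` in `𝒴`, close to `φ` in `H¹`, with `|u| < 1` and
`Q u = Q φ`. -/
def IsLocalMinimizer (L : ℝ) (φ : ℝ → ℝ) : Prop :=
  ∃ δ > 0, ∀ u : ℝ → ℂ, ContDiff ℝ ∞ u → Function.Periodic u L →
    (∀ x, u (L / 2 - x) = -u (x - L / 2)) → (∀ x, ‖u x‖ < 1) →
    massQ L u = massQ L (fun x => (φ x : ℂ)) →
    ∫ x in (0 : ℝ)..L, (‖u x - (φ x : ℂ)‖ ^ 2 + ‖deriv u x - ((deriv φ x : ℝ) : ℂ)‖ ^ 2) < δ ^ 2 →
    energyH L (fun x => (φ x : ℂ)) ≤ energyH L u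

open Pool.Agent.R207.OddWave in
theorem phi_smooth {ε : ℝ} (h : Small ε) : ContDiff ℝ ∞ (phi ε) := by
  have key : ∀ n : ℕ, ContDiff ℝ n (phi ε) ∧ ContDiff ℝ n (dphi ε) := by
    intro n
    induction n with
    | zero =>
      simp only [CharP.cast_eq_zero, contDiff_zero]
      exact ⟨phi_cont h, dphi_cont h⟩
    | succ n ih =>
      have e1 : deriv (phi ε) = dphi ε := funext fun y => (phi_hasDeriv h y).deriv
      have e2 : deriv (dphi ε) = fun y => -phi ε y ^ 3 / (1 - phi ε y ^ 2) :=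
        funext fun y => (dphi_hasDeriv h y).deriv
      constructor
      · push_cast
        rw [contDiff_succ_iff_deriv]
        exact ⟨fun y => (phi_hasDeriv h y).differentiableAt, by simp, by rw [e1]; exact ih.2⟩
      · push_cast
        rw [contDiff_succ_iff_deriv]
        refine ⟨fun y => (dphi_hasDeriv h y).differentiableAt, by simp, ?_⟩
        rw [e2]
        exact (ih.1.pow 3).neg.div (contDiff_const.sub (ih.1.pow 2)) (wave_phi h).ne
  exact contDiff_infty.mpr fun n => (key n).1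

open Pool.Agent.R207.OddWave in
theorem phi_isOddWave {ε : ℝ} (h : Small ε) : IsOddWave (4 * qp ε) 0 (phi ε) where
  smooth := phi_smooth h
  lt := phi_abs h
  eq := fun x => by
    have e1 : deriv (phi ε) = dphi ε := funext fun y => (phi_hasDeriv h y).deriv
    rw [e1, (dphi_hasDeriv h x).deriv]
    have := (wave_phi h).ne x
    field_simp
    ring
  per := phi_per h
  odd := phi_neg h
  pos := fun x h0 h1 => phi_pos h h0 (by linarith)

open Pool.Agent.R207.OddWave in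
theorem not_min {ε : ℝ} (hl : Large ε) : ¬ IsLocalMinimizer (4 * qp ε) (phi ε) := by
  rintro ⟨δ, hδ, H⟩
  have h := hl.toSmall
  have W := wave_phi h
  have hq := qp_pos h
  have hA : 0 < AA ε := lt_of_lt_of_le (NN_pos h) (NN_le_AA h)
  set Λ := -Real.log ε with hΛ
  have hΛ0 : 0 < Λ := by have := h.log; linarith
  set C0 : ℝ := 9 * AA ε ^ 2 * Λ + Λ + AA ε ^ 2 + 1 with hC0
  have hC0p : 0 < C0 := by positivity
  set E : ℝ := 4 * qp ε * (2 * C0) + 1 with hE
  have hEp : 0 < E := by positivity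
  have hδ1 : 0 < δ / √E := by positivity
  obtain ⟨s, τ, hs, hτ, hlt, hQ, hH⟩ := W.descent (Z := AA ε + 1) (by linarith) (tz_hasDeriv h)
    (tz'_cont h) (fun x => (tz_abs h x).trans (by linarith))
    (by unfold tz; rw [W.f0]; ring) (by unfold tz; rw [W.fL]; ring) (tz_orth h) hA (tz_neg hl) hδ1
  set w : ℝ → ℝ := fun x => phi ε x + (s * tz ε x + τ * phi ε x) with hw
  have hphis := phi_smooth h
  have htzs : ContDiff ℝ ∞ (tz ε) := by
    unfold tz
    fun_prop
  have hws : ContDiff ℝ ∞ w := by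
    rw [hw]; fun_prop
  have hwd : ∀ x, HasDerivAt w (dphi ε x + (s * tz' ε x + τ * dphi ε x)) x := fun x =>
    (phi_hasDeriv h x).add (((tz_hasDeriv h x).const_mul s).add ((phi_hasDeriv h x).const_mul τ))
  have hud : ∀ x, deriv (fun x => (w x : ℂ)) x =
      ((dphi ε x + (s * tz' ε x + τ * dphi ε x) : ℝ) : ℂ) := fun x => (hwd x).ofReal_comp.deriv
  have hpd : ∀ x, deriv (fun x => (phi ε x : ℂ)) x = ((dphi ε x : ℝ) : ℂ) := fun x =>
    (phi_hasDeriv h x).ofReal_comp.deriv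
  have hpd' : ∀ x, deriv (phi ε) x = dphi ε x := fun x => (phi_hasDeriv h x).deriv
  have hwper : Function.Periodic w (4 * qp ε) := by
    intro x
    rw [hw]
    simp only [tz, phi_per h x]
  have hwodd : ∀ x, w (-x) = -w x := by
    intro x
    rw [hw]
    simp only [tz, phi_neg h x]
    ring
  have := H (fun x => (w x : ℂ)) (Complex.ofRealCLM.contDiff.comp hws)
    (fun x => by simp only [hwper x]) (fun x => by
      have e : 4 * qp ε / 2 - x = -(x - 4 * qp ε / 2) := by ring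
      rw [e, hwodd]; push_cast; ring)
    (fun x => by
      rw [Complex.norm_real]; exact hlt x)
    (by
      unfold massQ
      simp only [Complex.norm_real, Real.norm_eq_abs, sq_abs]
      rw [← hQ])
    (by
      have hint : ∫ x in (0 : ℝ)..(4 * qp ε), (‖(w x : ℂ) - (phi ε x : ℂ)‖ ^ 2 +
          ‖deriv (fun x => (w x : ℂ)) x - ((deriv (phi ε) x : ℝ) : ℂ)‖ ^ 2) ≤
          ∫ _ in (0 : ℝ)..(4 * qp ε), 2 * C0 * (δ / √E) ^ 2 := by
        have e : (fun x => ‖(w x : ℂ) - (phi ε x : ℂ)‖ ^ 2 +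
          ‖deriv (fun x => (w x : ℂ)) x - ((deriv (phi ε) x : ℝ) : ℂ)‖ ^ 2) =
          fun x => (s * tz ε x + τ * phi ε x) ^ 2 + (s * tz' ε x + τ * dphi ε x) ^ 2 := by
          funext x
          rw [hud x, hpd' x, ← Complex.ofReal_sub, ← Complex.ofReal_sub, Complex.norm_real,
            Complex.norm_real, Real.norm_eq_abs, Real.norm_eq_abs, sq_abs, sq_abs, hw]
          ring
        rw [e]
        have hfc := phi_cont h
        have hpc := dphi_cont h
        have hzc := tz_cont h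
        have hz'c := tz'_cont h
        apply intervalIntegral.integral_mono_on (by positivity)
          (Continuous.intervalIntegrable (by fun_prop) _ _) (by simp)
        intro x _
        have b1 : s ^ 2 ≤ (δ / √E) ^ 2 := by rw [← sq_abs s]; gcongr
        have b2 : τ ^ 2 ≤ (δ / √E) ^ 2 := by rw [← sq_abs τ]; gcongr
        have c1 : tz ε x ^ 2 ≤ AA ε ^ 2 := by
          rw [← sq_abs]; have := tz_abs h x; gcongr
        have c2 : phi ε x ^ 2 ≤ 1 := by
          have := one_sub_pos h x; have := h.pos; linarith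
        have c3 := tz'_sq h x
        have c4 := dphi_sq_le h x
        have d1 : s ^ 2 * tz ε x ^ 2 ≤ (δ / √E) ^ 2 * AA ε ^ 2 := by gcongr
        have d2 : τ ^ 2 * phi ε x ^ 2 ≤ (δ / √E) ^ 2 * 1 := by gcongr
        have d3 : s ^ 2 * tz' ε x ^ 2 ≤ (δ / √E) ^ 2 * (9 * AA ε ^ 2 * Λ) := by gcongr
        have d4 : τ ^ 2 * dphi ε x ^ 2 ≤ (δ / √E) ^ 2 * Λ := by gcongr
        have g1 : (s * tz ε x + τ * phi ε x) ^ 2 ≤ 2 * (s ^ 2 * tz ε x ^ 2) +
            2 * (τ ^ 2 * phi ε x ^ 2) := by nlinarith [sq_nonneg (s * tz ε x - τ * phi ε x)]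
        have g2 : (s * tz' ε x + τ * dphi ε x) ^ 2 ≤ 2 * (s ^ 2 * tz' ε x ^ 2) +
            2 * (τ ^ 2 * dphi ε x ^ 2) := by nlinarith [sq_nonneg (s * tz' ε x - τ * dphi ε x)]
        have g3 : 2 * C0 * (δ / √E) ^ 2 = 2 * ((δ / √E) ^ 2 * AA ε ^ 2) + 2 * ((δ / √E) ^ 2 * 1) +
            2 * ((δ / √E) ^ 2 * (9 * AA ε ^ 2 * Λ)) + 2 * ((δ / √E) ^ 2 * Λ) := by
          rw [hC0]; ring
        rw [g3]
        linarith
      refine lt_of_le_of_lt hint ?_
      rw [intervalIntegral.integral_const, smul_eq_mul, sub_zero, div_pow, Real.sq_sqrt hEp.le]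
      have : 4 * qp ε * (2 * C0 * (δ ^ 2 / E)) = (E - 1) * (δ ^ 2 / E) := by rw [hE]; ring
      rw [this, sub_mul, mul_div_cancel₀ _ hEp.ne']
      have : 0 < δ ^ 2 / E := by positivity
      linarith)
  unfold energyH at this
  have e1 : (fun x => ‖deriv (fun x => (phi ε x : ℂ)) x‖ ^ 2 + ‖(phi ε x : ℂ)‖ ^ 2 +
      Real.log (1 - ‖(phi ε x : ℂ)‖ ^ 2)) =
      fun x => dphi ε x ^ 2 + phi ε x ^ 2 + Real.log (1 - phi ε x ^ 2) := by
    funext x
    rw [hpd x, Complex.norm_real, Complex.norm_real, Real.norm_eq_abs, Real.norm_eq_abs, sq_abs,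
      sq_abs]
  have e2 : (fun x => ‖deriv (fun x => (w x : ℂ)) x‖ ^ 2 + ‖(w x : ℂ)‖ ^ 2 +
      Real.log (1 - ‖(w x : ℂ)‖ ^ 2)) =
      fun x => (dphi ε x + (s * tz' ε x + τ * dphi ε x)) ^ 2 +
        (phi ε x + (s * tz ε x + τ * phi ε x)) ^ 2 +
        Real.log (1 - (phi ε x + (s * tz ε x + τ * phi ε x)) ^ 2) := by
    funext x
    rw [hud x, Complex.norm_real, Complex.norm_real, Real.norm_eq_abs, Real.norm_eq_abs, sq_abs,
      sq_abs]
  rw [e1, e2] at this
  linarith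

/-- For every period `L ≤ 3/4` there is an odd wave with `om = 0` which is not even a local minimizer;
so no threshold `Ω > 0` as in part (b) of the conjecture exists. -/
theorem result (L : ℝ) (hL0 : 0 < L) (hL1 : L ≤ 3 / 4) :
    (∃ φ, IsOddWave L 0 φ ∧ ¬ IsLocalMinimizer L φ) ∧
    ¬ ∃ Ω : ℝ, 0 < Ω ∧ Ω < 1 ∧ ∀ om < Ω, ∀ φ, IsOddWave L om φ → IsLocalMinimizer L φ := by
  obtain ⟨ε, hl, hq⟩ := Pool.Agent.R207.OddWave.exists_period hL0 hL1
  have h1 := phi_isOddWave hl.toSmall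
  have h2 := not_min hl
  rw [hq] at h1 h2
  refine ⟨⟨_, h1, h2⟩, ?_⟩
  rintro ⟨Ω, hΩ, _, H⟩
  exact h2 (H 0 hΩ _ h1)

end Pool.Agent.Results.MP_885ebb_an.OddUnstable
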